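import Pool.Agent.VMX.StmtsC
import Pool.Agent.Helper41_NBT.PZB

/-! VMX, row FIX (helper97). -/

set_option autoImplicit false

open Matrix Filter Topology

namespace Pool.Agent.VMX.H97

open Pool.Agent.PFS Pool.Agent.PFJ Pool.Agent.NBT

/-- the elements which separate a given functional -/
theorem sep_elt {n : ℕ} {C : Set (V n)} {Γ : Subgroup (GL (Fin n) ℝ)} (hCC : CC C Γ) {k : ℕ}
    {w : Fin (k + 1) → V n} (hpes : IsPES C Γ w)
    (hZ : ∀ r : ℕ → Fin (k + 1) → ℝ, (∀ m i, 0 < r m i) →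
      ∃ (φ : ℕ → ℕ) (γ : ℕ → GL (Fin n) ℝ) (t : ℕ → ℝ) (v : Fin (k + 1) → V n), StrictMono φ ∧
        (∀ m, γ m ∈ Γ) ∧ (∀ m, 0 < t m) ∧ IsPES C Γ v ∧
        (∀ i, Tendsto (fun m => t m • act (γ m) (r (φ m) i • w i)) atTop (𝓝 (v i))) ∧
        ∀ m i, ∃ β : ℝ, act (γ m) (w i) = β • w i)
    (ℓ : Fin (k + 1) → ℝ) (hℓ : ℓ ≠ 0) (hℓs : ∑ i, ℓ i = 0) :
    ∃ γ ∈ Γ, ∃ χ : Fin (k + 1) → ℝ, (∀ i, act γ (w i) = Real.exp (χ i) • w i) ∧
      ∑ i, ℓ i * χ i ≠ 0 := by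
  classical
  have hwcl : ∀ i, w i ∈ closure C := fun i => hpes.1.cl i
  have hw0 : ∀ i, w i ≠ 0 := fun i =>
    (Pool.Agent.PFS.H60.lin n C hCC.toPCone (Fin (k + 1)) w hpes.1).ne_zero i
  obtain ⟨φ, g, s, v, hφ, hg, hs, hTv, hlim, hline⟩ :=
    hZ (fun m i => Real.exp ((m : ℝ) * ℓ i)) (fun m i => Real.exp_pos _)
  have hv0 : ∀ i, v i ≠ 0 := fun i =>
    (Pool.Agent.PFS.H60.lin n C hCC.toPCone (Fin (k + 1)) v hTv.1).ne_zero i
  have hall : ∀ m i, ∃ b : ℝ, 0 < b ∧ act (g m) (w i) = b • w i := by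
    intro m i
    obtain ⟨b, hb⟩ := hline m i
    have hne : act (g m) (w i) ≠ 0 := by
      intro h
      apply hw0 i
      apply CC.act_injective (g m)
      rw [h, CC.act_zero]
    refine ⟨b, ?_, hb⟩
    rcases lt_trichotomy b 0 with hc | hc | hc
    · exfalso
      apply hne
      apply hCC.salient _ (hCC.act_cl (hg m) (hwcl i))
      rw [hb, ← neg_smul]
      exact hCC.cl_smul (hwcl i) (by linarith)
    · exfalso
      apply hne
      rw [hb, hc, zero_smul]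
    · exact hc
  choose b hb0 hbw using hall
  -- the norms
  set Q : ℕ → ℝ := fun m => ∑ i, ℓ i *
    Real.log ‖s m • act (g m) (Real.exp (((φ m : ℕ) : ℝ) * ℓ i) • w i)‖ with hQdef
  have hQ : Tendsto Q atTop (𝓝 (∑ i, ℓ i * Real.log ‖v i‖)) := by
    apply tendsto_finsetSum
    intro i _
    exact ((hlim i).norm.log (norm_ne_zero_iff.mpr (hv0 i))).const_mul (ℓ i)
  obtain ⟨N, hN⟩ := eventually_atTop.mp
    (Pool.Agent.NBT.H41.tend_bot ℓ hℓ Q _ hQ φ hφ (∑ i, ℓ i * Real.log ‖w i‖))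
  have hlt := hN N le_rfl
  refine ⟨g N, hg N, fun i => Real.log (b N i),
    fun i => by rw [Real.exp_log (hb0 N i)]; exact hbw N i, ?_⟩
  have hn0 : ∀ i, 0 < ‖w i‖ := fun i => norm_pos_iff.2 (hw0 i)
  have hlogm : ∀ i, Real.log ‖s N • act (g N) (Real.exp (((φ N : ℕ) : ℝ) * ℓ i) • w i)‖ =
      Real.log (s N) + (φ N : ℝ) * ℓ i + Real.log (b N i) + Real.log ‖w i‖ := by
    intro i
    rw [CC.act_smul, hbw N i, norm_smul, norm_smul, norm_smul, Real.norm_of_nonneg (hs N).le,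
      Real.norm_of_nonneg (Real.exp_pos _).le, Real.norm_of_nonneg (hb0 N i).le,
      Real.log_mul (hs N).ne' (by have := hb0 N i; have := hn0 i; positivity),
      Real.log_mul (Real.exp_pos _).ne' (by have := hb0 N i; have := hn0 i; positivity),
      Real.log_mul (hb0 N i).ne' (hn0 i).ne', Real.log_exp]
    ring
  have hQm : Q N = (φ N : ℝ) * ∑ i, ℓ i ^ 2 + ∑ i, ℓ i * Real.log (b N i) +
      ∑ i, ℓ i * Real.log ‖w i‖ := by
    rw [hQdef]
    simp only [hlogm]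
    have : ∀ i, ℓ i * (Real.log (s N) + (φ N : ℝ) * ℓ i + Real.log (b N i) +
        Real.log ‖w i‖) = Real.log (s N) * ℓ i + (φ N : ℝ) * ℓ i ^ 2 +
        ℓ i * Real.log (b N i) + ℓ i * Real.log ‖w i‖ := fun i => by ring
    simp only [this]
    rw [Finset.sum_add_distrib, Finset.sum_add_distrib, Finset.sum_add_distrib, ← Finset.mul_sum,
      ← Finset.mul_sum, hℓs, mul_zero, zero_add]
  rw [hQm] at hlt
  intro h
  rw [h] at hlt
  linarith

theorem fix : FixStmt := by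
  intro n C Γ hCC k hk w hpes hext hZ
  have hP : PCone C := hCC.toPCone
  have hind : LinearIndependent ℝ w := Pool.Agent.PFS.H60.lin n C hP _ w hpes.1
  have hF := (Pool.Agent.PFS.H32.frz n C hP _ w hind).mp hpes.1
  refine ⟨hind, hF.1, hF.2, ?_, ?_⟩
  · intro m v hvind hv1 hv2 hsub
    have hvP : PES C v := (Pool.Agent.PFS.H32.frz n C hP _ v hvind).mpr ⟨hv1, hv2⟩
    exact Pool.Agent.PFJ.H83.mxe n C hP (k + 1) (by omega) w hpes.1 hext (m + 1) v hvP hsub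
  · obtain ⟨χ, hχ, hχl⟩ := Pool.Agent.PFS.H81.chi k
      {χ : Fin (k + 1) → ℝ | ∃ γ ∈ Γ, ∀ i, act γ (w i) = Real.exp (χ i) • w i} (by
        intro ℓ hℓ hs
        obtain ⟨γ, hγ, χ, h4, h5⟩ := sep_elt hCC hpes hZ ℓ hℓ hs
        exact ⟨χ, ⟨γ, hγ, h4⟩, h5⟩)
    choose γ hγ hγχ using hχ
    exact Pool.Agent.PFS.H37.abeF n C Γ hCC k w hpes γ χ hγ hγχ hχl

end Pool.Agent.VMX.H97
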